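import Pool.Agent.helper62.VQ.SpecE

/-!
# MP_07c750, project VQ, block 5, row SHO (existence of the stable leaf)
-/

set_option autoImplicit false

open scoped MatrixGroups ContDiff Topology UpperHalfPlane
open UpperHalfPlane MeasureTheory Filter Set

namespace Pool.Agent.VQE

open Pool.Agent.RS

/-- the projection to `[-1/8, 1/8]` -/
noncomputable def SHO_cl (s : ℝ) : ℝ := max (-(1 / 8)) (min s (1 / 8))

theorem SHO_cl_abs (s : ℝ) : |SHO_cl s| ≤ 1 / 8 := by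
  unfold SHO_cl
  rw [abs_le]
  refine ⟨le_max_left _ _, max_le (by norm_num) (min_le_right _ _)⟩

theorem SHO_cl_eq {s : ℝ} (h : |s| ≤ 1 / 8) : SHO_cl s = s := by
  rw [abs_le] at h
  unfold SHO_cl
  rw [min_eq_left h.2, max_eq_right h.1]

theorem SHO_cl_lip (s t : ℝ) : |SHO_cl s - SHO_cl t| ≤ |s - t| := by
  unfold SHO_cl
  refine (abs_max_sub_max_le_max _ _ _ _).trans ?_
  rw [sub_self, abs_zero]
  refine max_le (abs_nonneg _) ?_
  refine (abs_min_sub_min_le_max _ _ _ _).trans ?_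
  rw [sub_self, abs_zero]
  exact max_le le_rfl (abs_nonneg _)

theorem SHO_cl_le (s : ℝ) : |SHO_cl s| ≤ |s| := by
  have h := SHO_cl_lip s 0
  have h0 : SHO_cl 0 = 0 := SHO_cl_eq (by norm_num)
  rwa [h0, sub_zero, sub_zero] at h

section core
variable {η : ℝ} {Φ : ℝ → ℝ × ℝ → ℝ × ℝ} {β' χ' : ℝ → ℝ × ℝ → ℝ}

theorem SHO_V (h2 : LYA_stmt) (hη0 : 0 ≤ η) (hη1 : η ≤ 1 / 200)
    (hd1 : ∀ z t, HasDerivAt (fun s => (Φ s z).1) (β' t z) t) (hd2 : ∀ z t, HasDerivAt (fun s => (Φ s z).2) (χ' t z) t)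
    (hb1 : ∀ z t, |β' t z + (Φ t z).1| ≤ η * (|(Φ t z).1| + |(Φ t z).2|))
    (hb2 : ∀ z t, |χ' t z - (Φ t z).2| ≤ η * (|(Φ t z).1| + |(Φ t z).2|)) (z : ℝ × ℝ) (s t : ℝ) (hst : s ≤ t) :
    Real.exp (t - s) * ((Φ s z).2 ^ 2 - (Φ s z).1 ^ 2 / 16) ≤ (Φ t z).2 ^ 2 - (Φ t z).1 ^ 2 / 16 := by
  have h := h2 η 0 0 (t - s) (fun r => (Φ (s + r) z).1) (fun r => (Φ (s + r) z).2) (fun r => β' (s + r) z)
    (fun r => χ' (s + r) z) hη0 hη1 le_rfl le_rfl (by norm_num) (by linarith) (by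
      intro r _
      refine ⟨(hd1 z (s + r)).comp_const_add s r, (hd2 z (s + r)).comp_const_add s r, ?_, ?_⟩
      · rw [zero_mul, add_zero]
        exact hb1 z (s + r)
      · rw [zero_mul, add_zero]
        exact hb2 z (s + r))
  simp only [add_zero, add_sub_cancel] at h
  norm_num at h
  exact h

theorem SHO_sign (h2 : LYA_stmt) (hη0 : 0 ≤ η) (hη1 : η ≤ 1 / 200)
    (hd1 : ∀ z t, HasDerivAt (fun s => (Φ s z).1) (β' t z) t) (hd2 : ∀ z t, HasDerivAt (fun s => (Φ s z).2) (χ' t z) t)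
    (hb1 : ∀ z t, |β' t z + (Φ t z).1| ≤ η * (|(Φ t z).1| + |(Φ t z).2|))
    (hb2 : ∀ z t, |χ' t z - (Φ t z).2| ≤ η * (|(Φ t z).1| + |(Φ t z).2|)) (z : ℝ × ℝ)
    (hz : 0 ≤ (Φ 0 z).2 ^ 2 - (Φ 0 z).1 ^ 2 / 16) (hz2 : (Φ 0 z).2 ≠ 0) (t : ℝ) (ht : 0 ≤ t) :
    0 < (Φ 0 z).2 * (Φ t z).2 := by
  have hV : ∀ s, 0 ≤ s → |(Φ s z).1| ≤ 4 * |(Φ s z).2| := by
    intro s hs
    have h := SHO_V h2 hη0 hη1 hd1 hd2 hb1 hb2 z 0 s hs
    have h3 : 0 ≤ (Φ s z).2 ^ 2 - (Φ s z).1 ^ 2 / 16 := le_trans (mul_nonneg (Real.exp_pos _).le hz) h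
    have h4 : (Φ s z).1 ^ 2 ≤ (4 * |(Φ s z).2|) ^ 2 := by
      rw [mul_pow, sq_abs]
      linarith
    exact abs_le_of_sq_le_sq h4 (by positivity)
  have hmono : MonotoneOn (fun s => (Φ s z).2 ^ 2) (Icc 0 t) := by
    have hder : ∀ s, HasDerivAt (fun s => (Φ s z).2 ^ 2) (2 * (Φ s z).2 * χ' s z) s := by
      intro s
      have h := (hd2 z s).fun_pow 2
      simpa using h
    apply monotoneOn_of_deriv_nonneg (convex_Icc 0 t)
    · exact fun s _ => (hder s).continuousAt.continuousWithinAt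
    · exact fun s _ => (hder s).differentiableAt.differentiableWithinAt
    · intro s hs
      rw [interior_Icc] at hs
      rw [(hder s).deriv]
      have h5 := hV s hs.1.le
      have h6 := hb2 z s
      have h7 : |χ' s z - (Φ s z).2| ≤ 1 / 2 * |(Φ s z).2| := by
        refine h6.trans ?_
        have : |(Φ s z).1| + |(Φ s z).2| ≤ 5 * |(Φ s z).2| := by linarith
        calc η * (|(Φ s z).1| + |(Φ s z).2|) ≤ η * (5 * |(Φ s z).2|) := mul_le_mul_of_nonneg_left this hη0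
          _ ≤ 1 / 2 * |(Φ s z).2| := by nlinarith [abs_nonneg (Φ s z).2]
      have h8 : |(Φ s z).2 * (χ' s z - (Φ s z).2)| ≤ 1 / 2 * (Φ s z).2 ^ 2 := by
        rw [abs_mul]
        calc |(Φ s z).2| * |χ' s z - (Φ s z).2| ≤ |(Φ s z).2| * (1 / 2 * |(Φ s z).2|) :=
              mul_le_mul_of_nonneg_left h7 (abs_nonneg _)
          _ = 1 / 2 * (Φ s z).2 ^ 2 := by
              rw [← sq_abs (Φ s z).2]
              ring
      have h9 := neg_le_of_abs_le h8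
      nlinarith [sq_nonneg (Φ s z).2]
  have hne : ∀ s ∈ Icc 0 t, (Φ s z).2 ≠ 0 := by
    intro s hs h0
    have h := hmono (left_mem_Icc.mpr ht) hs hs.1
    simp only [] at h
    rw [h0] at h
    have h3 : 0 < (Φ 0 z).2 ^ 2 := by positivity
    nlinarith
  by_contra hcon
  push Not at hcon
  have hc : ContinuousOn (fun s => (Φ 0 z).2 * (Φ s z).2) (Icc 0 t) :=
    fun s _ => ((hd2 z s).continuousAt.const_mul _).continuousWithinAt
  have h0 : (0 : ℝ) ∈ Icc ((fun s => (Φ 0 z).2 * (Φ s z).2) t) ((fun s => (Φ 0 z).2 * (Φ s z).2) 0) := by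
    refine ⟨hcon, ?_⟩
    show 0 ≤ (Φ 0 z).2 * (Φ 0 z).2
    exact mul_self_nonneg _
  obtain ⟨s, hs, hs0⟩ := intermediate_value_Icc' ht hc h0
  rcases mul_eq_zero.mp hs0 with h | h
  · exact hz2 h
  · exact hne s hs h

theorem SHO_core (h2 : LYA_stmt) (hη0 : 0 ≤ η) (hη1 : η ≤ 1 / 200) (hΦ0 : ∀ z, Φ 0 z = z)
    (hd1 : ∀ z t, HasDerivAt (fun s => (Φ s z).1) (β' t z) t) (hd2 : ∀ z t, HasDerivAt (fun s => (Φ s z).2) (χ' t z) t)
    (hb1 : ∀ z t, |β' t z + (Φ t z).1| ≤ η * (|(Φ t z).1| + |(Φ t z).2|))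
    (hb2 : ∀ z t, |χ' t z - (Φ t z).2| ≤ η * (|(Φ t z).1| + |(Φ t z).2|)) (hc : ∀ t, Continuous (Φ t)) (b : ℝ) (hb : b ≠ 0) :
    ∃ c, ∀ t, 0 ≤ t → |(Φ t (b, c)).2| ≤ |(Φ t (b, c)).1| / 4 := by
  have hbp : 0 < |b| := abs_pos.mpr hb
  have hVc : ∀ t : ℝ, Continuous (fun c : ℝ => (Φ t (b, c)).2 ^ 2 - (Φ t (b, c)).1 ^ 2 / 16) := by
    intro t
    have h : Continuous (fun c : ℝ => Φ t (b, c)) := (hc t).comp (by fun_prop)
    exact ((continuous_snd.comp h).pow 2).sub (((continuous_fst.comp h).pow 2).div_const _)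
  set C : ℕ → Set ℝ := fun n => Icc (-(|b| / 4)) (|b| / 4) ∩ {c | (Φ n (b, c)).2 ^ 2 - (Φ n (b, c)).1 ^ 2 / 16 ≤ 0} with hC
  have hcl : ∀ n, IsClosed (C n) := fun n => isClosed_Icc.inter (isClosed_le (hVc n) continuous_const)
  have hcp : IsCompact (C 0) := isCompact_Icc.inter_right (isClosed_le (hVc _) continuous_const)
  have hpers : ∀ (z : ℝ × ℝ) (s t : ℝ), s ≤ t → 0 < (Φ s z).2 ^ 2 - (Φ s z).1 ^ 2 / 16 → 0 < (Φ t z).2 ^ 2 - (Φ t z).1 ^ 2 / 16 := by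
    intro z s t hst h
    exact lt_of_lt_of_le (mul_pos (Real.exp_pos _) h) (SHO_V h2 hη0 hη1 hd1 hd2 hb1 hb2 z s t hst)
  have hdec : ∀ n, C (n + 1) ⊆ C n := by
    rintro n c ⟨h3, h4⟩
    refine ⟨h3, ?_⟩
    show (Φ n (b, c)).2 ^ 2 - (Φ n (b, c)).1 ^ 2 / 16 ≤ 0
    by_contra h5
    push Not at h5
    have h6 := hpers (b, c) n ((n + 1 : ℕ) : ℝ) (by push_cast; linarith) h5
    exact absurd h4 (not_le.mpr h6)
  have hne : ∀ n, (C n).Nonempty := by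
    intro n
    have hn : (0 : ℝ) ≤ n := Nat.cast_nonneg n
    have hp := SHO_sign h2 hη0 hη1 hd1 hd2 hb1 hb2 (b, |b| / 4) (by
      rw [hΦ0]
      show 0 ≤ (|b| / 4) ^ 2 - b ^ 2 / 16
      rw [div_pow, sq_abs]
      linarith) (by
      rw [hΦ0]
      show |b| / 4 ≠ 0
      positivity) n hn
    have hm := SHO_sign h2 hη0 hη1 hd1 hd2 hb1 hb2 (b, -(|b| / 4)) (by
      rw [hΦ0]
      show 0 ≤ (-(|b| / 4)) ^ 2 - b ^ 2 / 16
      rw [neg_sq, div_pow, sq_abs]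
      linarith) (by
      rw [hΦ0]
      show -(|b| / 4) ≠ 0
      exact neg_ne_zero.mpr (by positivity)) n hn
    rw [hΦ0] at hp hm
    have hp' : 0 < (Φ n (b, |b| / 4)).2 := by
      have : 0 < |b| / 4 * (Φ n (b, |b| / 4)).2 := hp
      exact (mul_pos_iff_of_pos_left (by positivity)).mp this
    have hm' : (Φ n (b, -(|b| / 4))).2 < 0 := by
      have h3 : 0 < -(|b| / 4) * (Φ n (b, -(|b| / 4))).2 := hm
      by_contra h4
      push Not at h4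
      nlinarith
    have hcont : ContinuousOn (fun c : ℝ => (Φ n (b, c)).2) (Icc (-(|b| / 4)) (|b| / 4)) :=
      (continuous_snd.comp ((hc n).comp (by fun_prop : Continuous (fun c : ℝ => (b, c))))).continuousOn
    obtain ⟨c, hcI, hc0⟩ := intermediate_value_Icc (by linarith : -(|b| / 4) ≤ |b| / 4) hcont ⟨hm'.le, hp'.le⟩
    refine ⟨c, hcI, ?_⟩
    show (Φ n (b, c)).2 ^ 2 - (Φ n (b, c)).1 ^ 2 / 16 ≤ 0
    have h5 : (Φ n (b, c)).2 = 0 := hc0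
    rw [h5]
    nlinarith [sq_nonneg (Φ n (b, c)).1]
  obtain ⟨c, hcm⟩ := IsCompact.nonempty_iInter_of_sequence_nonempty_isCompact_isClosed C hdec hne hcp hcl
  refine ⟨c, fun t ht => ?_⟩
  have h3 : (Φ t (b, c)).2 ^ 2 - (Φ t (b, c)).1 ^ 2 / 16 ≤ 0 := by
    by_contra h4
    push Not at h4
    obtain ⟨n, hn⟩ := exists_nat_ge t
    have h5 := hpers (b, c) t n hn h4
    have h6 := (Set.mem_iInter.mp hcm n).2
    exact absurd h6 (not_le.mpr h5)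
  have h4 : (Φ t (b, c)).2 ^ 2 ≤ (|(Φ t (b, c)).1| / 4) ^ 2 := by
    rw [div_pow, sq_abs]
    linarith
  exact abs_le_of_sq_le_sq h4 (by positivity)

end core

theorem SHO_proof (h1 : UVX_stmt) (h2 : LYA_stmt) (h3 : DEC_stmt) (h4 : GLO_stmt) : SHO_stmt := by
  intro δ p q f hδ0 hδ1 hF hfl g b hb
  obtain ⟨-, -, hU⟩ := h1 δ p q hδ0 (by linarith) hF
  have hz8 : |(0 : ℝ)| ≤ 1 / 8 := by norm_num
  have hu0 : ∀ g', hu p q g' 0 0 = 0 := fun g' => ((hU 0 0 0 0 hz8 hz8 hz8 hz8).2.2.2.1 g').1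
  have hv0 : ∀ g', hv p q g' 0 0 = 0 := fun g' => ((hU 0 0 0 0 hz8 hz8 hz8 hz8).2.2.2.1 g').2
  by_cases hb0 : b = 0
  · subst hb0
    refine ⟨fun _ => 0, fun _ => 0, ⟨?_, ?_, ?_, ?_, ?_⟩, rfl⟩
    · intro t _
      have h : -(0 : ℝ) - hu p q (f t g) 0 0 = 0 := by rw [hu0]; norm_num
      show HasDerivAt (fun _ : ℝ => (0 : ℝ)) (-(0 : ℝ) - hu p q (f t g) 0 0) t
      rw [h]
      exact hasDerivAt_const t 0
    · intro t _
      have h : (0 : ℝ) + hv p q (f t g) 0 0 = 0 := by rw [hv0]; norm_num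
      show HasDerivAt (fun _ : ℝ => (0 : ℝ)) ((0 : ℝ) + hv p q (f t g) 0 0) t
      rw [h]
      exact hasDerivAt_const t 0
    · norm_num
    · intro t _
      norm_num
    · intro t _
      norm_num
  set F : ℝ → ℝ × ℝ → ℝ × ℝ := fun t z =>
    (-z.1 - hu p q (f t g) (SHO_cl z.1) (SHO_cl z.2), z.2 + hv p q (f t g) (SHO_cl z.1) (SHO_cl z.2)) with hFd
  have hfc : Continuous (fun t : ℝ => f t g) := hfl.cont.comp (by fun_prop : Continuous (fun t : ℝ => (t, g)))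
  have hFc : ∀ z, Continuous (fun t => F t z) := by
    intro z
    have hh := hU (SHO_cl z.1) (SHO_cl z.2) 0 0 (SHO_cl_abs _) (SHO_cl_abs _) hz8 hz8
    have hc1 : Continuous (fun t => hu p q (f t g) (SHO_cl z.1) (SHO_cl z.2)) := hh.2.2.2.2.1.comp hfc
    have hc2 : Continuous (fun t => hv p q (f t g) (SHO_cl z.1) (SHO_cl z.2)) := hh.2.2.2.2.2.1.comp hfc
    exact (continuous_const.sub hc1).prodMk (continuous_const.add hc2)
  have hη1 : 50 * δ ≤ 1 / 200 := by linarith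
  have hη0 : 0 ≤ 50 * δ := by linarith
  have hFL : ∀ t z w, ‖F t z - F t w‖ ≤ 2 * ‖z - w‖ := by
    intro t z w
    have hh := hU (SHO_cl z.1) (SHO_cl z.2) (SHO_cl w.1) (SHO_cl w.2) (SHO_cl_abs _) (SHO_cl_abs _) (SHO_cl_abs _) (SHO_cl_abs _)
    have e1 : |z.1 - w.1| ≤ ‖z - w‖ := norm_fst_le (z - w)
    have e2 : |z.2 - w.2| ≤ ‖z - w‖ := norm_snd_le (z - w)
    have k1 := SHO_cl_lip z.1 w.1
    have k2 := SHO_cl_lip z.2 w.2
    have k3 : 50 * δ * (|SHO_cl z.1 - SHO_cl w.1| + |SHO_cl z.2 - SHO_cl w.2|) ≤ ‖z - w‖ := by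
      have : |SHO_cl z.1 - SHO_cl w.1| + |SHO_cl z.2 - SHO_cl w.2| ≤ 2 * ‖z - w‖ := by linarith
      calc 50 * δ * (|SHO_cl z.1 - SHO_cl w.1| + |SHO_cl z.2 - SHO_cl w.2|) ≤ 50 * δ * (2 * ‖z - w‖) :=
            mul_le_mul_of_nonneg_left this hη0
        _ ≤ ‖z - w‖ := by nlinarith [norm_nonneg (z - w)]
    have m1 := (hh.1 (f t g)).trans k3
    have m2 := (hh.2.1 (f t g)).trans k3
    rw [Prod.norm_def]
    refine max_le ?_ ?_
    · show |(-z.1 - hu p q (f t g) (SHO_cl z.1) (SHO_cl z.2)) - (-w.1 - hu p q (f t g) (SHO_cl w.1) (SHO_cl w.2))| ≤ _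
      rw [abs_le] at m1 e1 ⊢
      constructor <;> linarith [m1.1, m1.2, e1.1, e1.2]
    · show |(z.2 + hv p q (f t g) (SHO_cl z.1) (SHO_cl z.2)) - (w.2 + hv p q (f t g) (SHO_cl w.1) (SHO_cl w.2))| ≤ _
      rw [abs_le] at m2 e2 ⊢
      constructor <;> linarith [m2.1, m2.2, e2.1, e2.2]
  obtain ⟨Φ, hΦ0, hΦd, hΦc⟩ := h4 F 2 hFc hFL
  have hd1 : ∀ z t, HasDerivAt (fun s => (Φ s z).1) ((F t (Φ t z)).1) t := fun z t => (hΦd z t).fst
  have hd2 : ∀ z t, HasDerivAt (fun s => (Φ s z).2) ((F t (Φ t z)).2) t := fun z t => (hΦd z t).snd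
  have hcl : ∀ (z : ℝ × ℝ) (g' : SL(2, ℝ)), |hu p q g' (SHO_cl z.1) (SHO_cl z.2)| ≤ 50 * δ * (|z.1| + |z.2|) ∧
      |hv p q g' (SHO_cl z.1) (SHO_cl z.2)| ≤ 50 * δ * (|z.1| + |z.2|) := by
    intro z g'
    have hh := hU (SHO_cl z.1) (SHO_cl z.2) 0 0 (SHO_cl_abs _) (SHO_cl_abs _) hz8 hz8
    have m1 := hh.1 g'
    have m2 := hh.2.1 g'
    rw [hu0, sub_zero, sub_zero, sub_zero] at m1
    rw [hv0, sub_zero, sub_zero, sub_zero] at m2
    have k : 50 * δ * (|SHO_cl z.1| + |SHO_cl z.2|) ≤ 50 * δ * (|z.1| + |z.2|) :=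
      mul_le_mul_of_nonneg_left (add_le_add (SHO_cl_le _) (SHO_cl_le _)) hη0
    exact ⟨m1.trans k, m2.trans k⟩
  have hb1 : ∀ z t, |(F t (Φ t z)).1 + (Φ t z).1| ≤ 50 * δ * (|(Φ t z).1| + |(Φ t z).2|) := by
    intro z t
    have e : (F t (Φ t z)).1 + (Φ t z).1 = -hu p q (f t g) (SHO_cl (Φ t z).1) (SHO_cl (Φ t z).2) := by
      show -(Φ t z).1 - hu p q (f t g) (SHO_cl (Φ t z).1) (SHO_cl (Φ t z).2) + (Φ t z).1 = _
      ring
    rw [e, abs_neg]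
    exact (hcl (Φ t z) (f t g)).1
  have hb2 : ∀ z t, |(F t (Φ t z)).2 - (Φ t z).2| ≤ 50 * δ * (|(Φ t z).1| + |(Φ t z).2|) := by
    intro z t
    have e : (F t (Φ t z)).2 - (Φ t z).2 = hv p q (f t g) (SHO_cl (Φ t z).1) (SHO_cl (Φ t z).2) := by
      show (Φ t z).2 + hv p q (f t g) (SHO_cl (Φ t z).1) (SHO_cl (Φ t z).2) - (Φ t z).2 = _
      ring
    rw [e]
    exact (hcl (Φ t z) (f t g)).2
  obtain ⟨c, hcone⟩ := SHO_core (β' := fun t z => (F t (Φ t z)).1) (χ' := fun t z => (F t (Φ t z)).2) h2 hη0 hη1 hΦ0 hd1 hd2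
    hb1 hb2 hΦc b hb0
  have hdec : ∀ t, 0 ≤ t → |(Φ t (b, c)).1| ≤ |b| * Real.exp (-(9 / 10 * t)) := by
    intro t ht
    have h := h3 (50 * δ) t (fun s => (Φ s (b, c)).1) (fun s => (Φ s (b, c)).2) (fun s => (F s (Φ s (b, c))).1) hη0 hη1 ht
      (fun s hs => ⟨hd1 (b, c) s, hcone s hs.1, hb1 (b, c) s⟩)
    simp only [hΦ0] at h
    exact h
  have hx8 : ∀ t, 0 ≤ t → |(Φ t (b, c)).1| ≤ 1 / 8 := by
    intro t ht
    refine (hdec t ht).trans ?_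
    have h5 : Real.exp (-(9 / 10 * t)) ≤ 1 := Real.exp_le_one_iff.mpr (by linarith)
    calc |b| * Real.exp (-(9 / 10 * t)) ≤ |b| * 1 := mul_le_mul_of_nonneg_left h5 (abs_nonneg b)
      _ ≤ 1 / 8 := by rw [mul_one]; exact hb
  have hy8 : ∀ t, 0 ≤ t → |(Φ t (b, c)).2| ≤ 1 / 8 := by
    intro t ht
    have h5 := hcone t ht
    have h6 := hx8 t ht
    linarith
  refine ⟨fun t => (Φ t (b, c)).1, fun t => (Φ t (b, c)).2, ⟨?_, ?_, ?_, hcone, ?_⟩, ?_⟩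
  · intro t ht
    have h := hd1 (b, c) t
    have e : (F t (Φ t (b, c))).1 = -(Φ t (b, c)).1 - hu p q (f t g) (Φ t (b, c)).1 (Φ t (b, c)).2 := by
      show -(Φ t (b, c)).1 - hu p q (f t g) (SHO_cl (Φ t (b, c)).1) (SHO_cl (Φ t (b, c)).2) = _
      rw [SHO_cl_eq (hx8 t ht), SHO_cl_eq (hy8 t ht)]
    rw [e] at h
    exact h
  · intro t ht
    have h := hd2 (b, c) t
    have e : (F t (Φ t (b, c))).2 = (Φ t (b, c)).2 + hv p q (f t g) (Φ t (b, c)).1 (Φ t (b, c)).2 := by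
      show (Φ t (b, c)).2 + hv p q (f t g) (SHO_cl (Φ t (b, c)).1) (SHO_cl (Φ t (b, c)).2) = _
      rw [SHO_cl_eq (hx8 t ht), SHO_cl_eq (hy8 t ht)]
    rw [e] at h
    exact h
  · simp only [hΦ0]
    exact hb
  · intro t ht
    simp only [hΦ0]
    exact hdec t ht
  · simp only [hΦ0]

end Pool.Agent.VQE
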